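import Pool.Agent.Helper76.CV.Goals

/-!
# Packet CV-SWF
-/

set_option autoImplicit false

open scoped ContDiff
open Filter Topology

namespace Pool.Agent.Helper63.CV.SWF

open Pool.Agent.Helper76.CV

/-- the steps -/
noncomputable def st (P t : ℝ) (i : ℕ) : ℝ :=
  if i = 0 then 1 else Real.smoothTransition (20 * (t - i * P) + 1 / 2)

theorem st_zero (P t : ℝ) : st P t 0 = 1 := by rw [st, if_pos rfl]

theorem st_nonneg (P t : ℝ) (i : ℕ) : 0 ≤ st P t i := by
  rw [st]
  split_ifs
  · norm_num
  · exact Real.smoothTransition.nonneg _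

theorem st_le_one (P t : ℝ) (i : ℕ) : st P t i ≤ 1 := by
  rw [st]
  split_ifs
  · norm_num
  · exact Real.smoothTransition.le_one _

theorem st_anti (P t : ℝ) (hP : 1 ≤ P) (i : ℕ) : st P t (i + 1) ≤ st P t i := by
  by_cases h : 20 * (t - ((i + 1 : ℕ) : ℝ) * P) + 1 / 2 ≤ 0
  · have : st P t (i + 1) = 0 := by
      rw [st, if_neg (Nat.succ_ne_zero i), Real.smoothTransition.zero_of_nonpos h]
    rw [this]
    exact st_nonneg P t i
  · have h1 : st P t i = 1 := by
      rw [st]
      split_ifs with h0
      · rfl
      · apply Real.smoothTransition.one_of_one_le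
        push_cast at h
        push Not at h
        nlinarith
    rw [h1]
    exact st_le_one P t (i + 1)

theorem sw_eq (N : ℕ) (a : ℕ → ℝ) (P t : ℝ) :
    sw (N + 1) a P t = ∑ i ∈ Finset.range N, a i * (st P t i - st P t (i + 1)) + a N * st P t N := by
  induction N with
  | zero => simp [sw, st_zero]
  | succ N ih =>
    have h1 : sw (N + 1 + 1) a P t = sw (N + 1) a P t + (a (N + 1) - a N) * st P t (N + 1) := by
      rw [sw, sw, Finset.sum_Ico_succ_top (by omega), st, if_neg (Nat.succ_ne_zero N), add_assoc]
      simp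
    rw [h1, ih, Finset.sum_range_succ]
    ring

theorem sw_step (N : ℕ) (a : ℕ → ℝ) (P u : ℝ) (k : ℕ) (hk : k < N)
    (h : ∀ i ∈ Finset.Ico 1 N, Real.smoothTransition (20 * (u - i * P) + 1 / 2) = if i ≤ k then 1 else 0) :
    sw N a P u = a k := by
  rw [sw]
  have h1 : ∑ i ∈ Finset.Ico 1 N, (a i - a (i - 1)) * Real.smoothTransition (20 * (u - i * P) + 1 / 2) =
      ∑ i ∈ Finset.Ico 1 (k + 1), (a i - a (i - 1)) := by
    have h2 : Finset.Ico 1 (k + 1) = (Finset.Ico 1 N).filter (fun i => i ≤ k) := by
      ext i
      simp only [Finset.mem_Ico, Finset.mem_filter]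
      omega
    rw [h2, Finset.sum_filter]
    refine Finset.sum_congr rfl fun i hi => ?_
    rw [h i hi]
    split_ifs <;> simp
  rw [h1, Finset.sum_Ico_eq_sum_range]
  simp only [Nat.add_sub_cancel, Nat.add_sub_cancel_left]
  have h3 : ∑ i ∈ Finset.range k, (a (1 + i) - a i) = a k - a 0 := by
    rw [← Finset.sum_range_sub a k]
    refine Finset.sum_congr rfl fun i _ => ?_
    rw [add_comm 1 i]
  rw [h3]
  ring

theorem t : Pool.Agent.Helper76.CV.SWF := by
  intro N P hN hP
  refine ⟨?_, ?_, ?_⟩
  · intro a
    unfold sw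
    refine contDiff_const.add (ContDiff.sum fun i _ => contDiff_const.mul ?_)
    exact Real.smoothTransition.contDiff.comp
      ((contDiff_const.mul (contDiff_id.sub contDiff_const)).add contDiff_const)
  · intro a t ha
    obtain ⟨M, rfl⟩ : ∃ M, N = M + 1 := ⟨N - 1, by omega⟩
    rw [sw_eq]
    refine ⟨?_, ?_⟩
    · refine add_nonneg (Finset.sum_nonneg fun i _ => mul_nonneg (ha i).1 ?_)
        (mul_nonneg (ha M).1 (st_nonneg P t M))
      linarith [st_anti P t hP i]
    · calc ∑ i ∈ Finset.range M, a i * (st P t i - st P t (i + 1)) + a M * st P t M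
          ≤ ∑ i ∈ Finset.range M, (st P t i - st P t (i + 1)) + st P t M := by
            refine add_le_add (Finset.sum_le_sum fun i _ => ?_) ?_
            · exact mul_le_of_le_one_left (by linarith [st_anti P t hP i]) (ha i).2
            · exact mul_le_of_le_one_left (st_nonneg P t M) (ha M).2
        _ = 1 := by
            rw [Finset.sum_range_sub', st_zero]
            ring
  · intro t ht
    classical
    let k := Nat.findGreatest (fun i : ℕ => (i : ℝ) * P < t) (N - 1)
    have hkN : k < N := by
      have : k ≤ N - 1 := Nat.findGreatest_le _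
      omega
    refine ⟨k, ?_⟩
    have hev : ∀ i ∈ Finset.Ico 1 N, ∀ᶠ u in 𝓝 t,
        Real.smoothTransition (20 * (u - i * P) + 1 / 2) = if i ≤ k then 1 else 0 := by
      intro i hi
      obtain ⟨hi1, hiN⟩ := Finset.mem_Ico.1 hi
      have hti := ht i hi1 hiN
      by_cases hit : (i : ℝ) * P < t
      · have hik : i ≤ k := Nat.le_findGreatest (by omega) hit
        have h1 : i * P + 1 / 40 < t := by
          rw [abs_of_pos (by linarith)] at hti
          linarith
        filter_upwards [lt_mem_nhds h1] with u hu
        rw [if_pos hik, Real.smoothTransition.one_of_one_le (by linarith)]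
      · have hik : ¬ i ≤ k := by
          intro hik
          apply hit
          have hk0 : k ≠ 0 := by omega
          have h2 : (k : ℝ) * P < t := Nat.findGreatest_of_ne_zero (P := fun i : ℕ => (i : ℝ) * P < t) rfl hk0
          have h3 : (i : ℝ) ≤ k := by exact_mod_cast hik
          nlinarith
        have h1 : t < i * P - 1 / 40 := by
          rw [abs_of_nonpos (by linarith)] at hti
          linarith
        filter_upwards [gt_mem_nhds h1] with u hu
        rw [if_neg hik, Real.smoothTransition.zero_of_nonpos (by linarith)]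
    filter_upwards [(Filter.eventually_all_finset _).2 hev] with u hu a
    exact sw_step N a P u k hkN hu

end Pool.Agent.Helper63.CV.SWF
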