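import Pool.Agent.Helper76.CV.Goals

/-!
# Packet CV-WF3
-/

set_option autoImplicit false

namespace Pool.Agent.Helper63.CV.WF3

open Pool.Agent.Helper76.CV

theorem t (hWF1 : WF1) : Pool.Agent.Helper76.CV.WF3 := by
  obtain ⟨-, -, -, hW⟩ := hWF1
  intro v hv hz
  have hpi : Real.pi < 3.1416 := Real.pi_lt_d4
  set w := 4 / 25 - v with hw
  have hw0 : 0 < w := by rw [hw]; linarith
  obtain ⟨h1, h2, -⟩ := hW w hw0
  -- lower bound of `W`
  have hlow : ∀ c : ℝ, 0 < c → c ≤ w → c * (1 - 1 / (1000 * c)) ≤ W w := by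
    intro c hc hcw
    rw [h1]
    have hx : 1 / (1000 * w) ≤ 1 / (1000 * c) := one_div_le_one_div_of_le (by positivity) (by linarith)
    have he : 1 - 1 / (1000 * c) ≤ Real.exp (-(1 / (1000 * w))) := by
      have := Real.add_one_le_exp (-(1 / (1000 * w)))
      linarith
    have he0 : 0 < Real.exp (-(1 / (1000 * w))) := Real.exp_pos _
    calc c * (1 - 1 / (1000 * c)) ≤ c * Real.exp (-(1 / (1000 * w))) := mul_le_mul_of_nonneg_left he hc.le
      _ ≤ w * Real.exp (-(1 / (1000 * w))) := mul_le_mul_of_nonneg_right hcw he0.le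
  refine ⟨?_, ?_⟩
  · by_contra hc
    push Not at hc
    have h3 := hlow (61 / 500) (by norm_num) (by rw [hw]; linarith)
    norm_num at h3
    linarith
  · intro hv6
    have hw10 : 1 / 10 < w := by rw [hw]; linarith
    have h3 := hlow (1 / 10) (by norm_num) hw10.le
    norm_num at h3
    set z := 13 * W w with hzdef
    have hz1 : 1287 / 1000 ≤ z := by rw [hzdef]; linarith
    set s := Real.pi / 2 - z with hs
    have hs0 : 0 < s := by rw [hs]; linarith
    have hs1 : s ≤ 2838 / 10000 := by rw [hs]; linarith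
    have hsin : Real.sin z = Real.cos s := by rw [hs, Real.cos_pi_div_two_sub]
    have hcos : Real.cos z = Real.sin s := by rw [hs, Real.sin_pi_div_two_sub]
    have hc1 : 1 - s ^ 2 / 2 ≤ Real.cos s := Real.one_sub_sq_div_two_le_cos
    have hs2 : Real.sin s ≤ s := Real.sin_le hs0.le
    have hs3 : 0 < Real.sin s := Real.sin_pos_of_pos_of_lt_pi hs0 (by linarith [Real.pi_gt_three])
    have hlam : 338 / 100 ≤ lam v := by
      rw [lam, ← hw, ← hzdef, Real.tan_eq_sin_div_cos, hsin, hcos, le_div_iff₀ hs3]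
      nlinarith
    have hd : 9999 / 10000 ≤ deriv W w := by
      rw [h2]
      have hx : 1 / (1000 * w) ≤ 1 / 100 := by
        rw [div_le_div_iff₀ (by positivity) (by norm_num)]
        linarith
      have hx0 : 0 < 1 / (1000 * w) := by positivity
      have he : 1 - 1 / (1000 * w) ≤ Real.exp (-(1 / (1000 * w))) := by
        have := Real.add_one_le_exp (-(1 / (1000 * w)))
        linarith
      nlinarith
    rw [sg, ← hw]
    nlinarith

end Pool.Agent.Helper63.CV.WF3
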